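import Pool.Agent.Helper20.NP.Stmts
import Pool.Agent.Helper79.DN.ASC

set_option autoImplicit false

namespace Pool.Agent.Helper20.NP

open Pool.Agent.Helper21.DN

universe u

theorem as1_charL (p : ℕ) [Fact p.Prime] {k K L : Type u} [Field k] [CharP k p] [Field K]
    [Field L] [Algebra K L] (κ : k →+* K) : CharP K p ∧ CharP L p := by
  have h1 : CharP K p := charP_of_injective_ringHom κ.injective p
  exact ⟨h1, charP_of_injective_ringHom (algebraMap K L).injective p⟩

/-- additive Hilbert 90 for the constant `1` -/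
theorem as1_w0 (p : ℕ) [Fact p.Prime] (K L : Type u) [Field K] [Field L] [CharP L p]
    [Algebra K L] [FiniteDimensional K L] [IsGalois K L] (hn : Module.finrank K L = p)
    (σ : L ≃ₐ[K] L) (hσ : σ ≠ 1) : ∃ w : L, σ w = w + 1 := by
  classical
  have hcard : Nat.card (L ≃ₐ[K] L) = p := by
    rw [IsGalois.card_aut_eq_finrank, hn]
  have hgen : ∀ τ : L ≃ₐ[K] L, τ ∈ Subgroup.zpowers σ := fun τ =>
    mem_zpowers_of_prime_card hcard hσ
  have hord : orderOf σ = p := by
    rw [orderOf_eq_card_of_forall_mem_zpowers hgen, hcard]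
  obtain ⟨θ, hθ⟩ := Algebra.trace_surjective K L 1
  have htr : ∑ i ∈ Finset.range p, (σ ^ i) θ = 1 := by
    have h1 := trace_eq_sum_automorphisms (K := K) θ
    rw [hθ, map_one] at h1
    rw [h1, ← IsCyclic.image_range_orderOf hgen, hord, Finset.sum_image]
    intro i hi j hj hij
    apply pow_injOn_Iio_orderOf (x := σ)
    · rw [hord]
      exact Finset.mem_range.1 (Finset.mem_coe.1 hi)
    · rw [hord]
      exact Finset.mem_range.1 (Finset.mem_coe.1 hj)
    · exact hij
  have hp0 : (p : L) = 0 := CharP.cast_eq_zero L p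
  have hsp : σ ^ p = 1 := by
    rw [← hord]
    exact pow_orderOf_eq_one σ
  refine ⟨-∑ i ∈ Finset.range p, (i : L) * (σ ^ i) θ, ?_⟩
  have h1 : σ (∑ i ∈ Finset.range p, (i : L) * (σ ^ i) θ) =
      ∑ i ∈ Finset.range p, (i : L) * (σ ^ (i + 1)) θ := by
    rw [map_sum]
    apply Finset.sum_congr rfl
    intro i _
    rw [map_mul, map_natCast, pow_succ', AlgEquiv.mul_apply]
  have h2 : ∑ i ∈ Finset.range p, ((i : L) * (σ ^ (i + 1)) θ) =
      ∑ i ∈ Finset.range p, (((i + 1 : ℕ) : L) * (σ ^ (i + 1)) θ) -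
      ∑ i ∈ Finset.range p, (σ ^ (i + 1)) θ := by
    rw [← Finset.sum_sub_distrib]
    apply Finset.sum_congr rfl
    intro i _
    push_cast
    ring
  have h3 : ∑ i ∈ Finset.range p, (((i + 1 : ℕ) : L) * (σ ^ (i + 1)) θ) =
      ∑ i ∈ Finset.range p, ((i : L) * (σ ^ i) θ) := by
    have h4 := Finset.sum_range_succ' (fun i : ℕ => ((i : L) * (σ ^ i) θ)) p
    have h5 := Finset.sum_range_succ (fun i : ℕ => ((i : L) * (σ ^ i) θ)) p
    rw [h4] at h5
    simp only [Nat.cast_zero, zero_mul, add_zero, hp0] at h5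
    exact h5
  have h4 : ∑ i ∈ Finset.range p, (σ ^ (i + 1)) θ = ∑ i ∈ Finset.range p, (σ ^ i) θ := by
    have h4 := Finset.sum_range_succ' (fun i : ℕ => (σ ^ i) θ) p
    have h5 := Finset.sum_range_succ (fun i : ℕ => (σ ^ i) θ) p
    rw [h4, hsp, pow_zero] at h5
    exact add_right_cancel h5
  rw [map_neg, h1, h2, h3, h4, htr]
  ring

theorem st_AS1 (hRED : ST_RED.{u}) (hVK : ST_VK.{u}) (hS1 : ST_S1.{u}) : ST_AS1.{u} := by
  intro p _ k K L _ _ _ _ _ _ _ _ κ v hv hn σ hσ
  have hp : p.Prime := Fact.out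
  obtain ⟨hK, hL⟩ := as1_charL (L := L) p κ
  obtain ⟨w0, hw0⟩ := as1_w0 p K L hn σ hσ
  have hcard : Nat.card (L ≃ₐ[K] L) = p := by
    rw [IsGalois.card_aut_eq_finrank, hn]
  have hgen : ∀ τ : L ≃ₐ[K] L, τ ∈ Subgroup.zpowers σ := fun τ =>
    mem_zpowers_of_prime_card hcard hσ
  have hsp : σ ^ p = 1 := by
    rw [← hcard]
    exact pow_card_eq_one'
  have hfix : σ (w0 ^ p - w0) = w0 ^ p - w0 := by
    rw [map_sub, map_pow, hw0, add_pow_char, one_pow]
    ring
  have hmem : w0 ^ p - w0 ∈ Set.range (algebraMap K L) := by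
    rw [IsGalois.mem_range_algebraMap_iff_fixed]
    intro τ
    have h1 : σ ∈ MulAction.stabilizer (L ≃ₐ[K] L) (w0 ^ p - w0) := hfix
    have h2 : Subgroup.zpowers σ ≤ MulAction.stabilizer (L ≃ₐ[K] L) (w0 ^ p - w0) := by
      rw [Subgroup.zpowers_le]
      exact h1
    exact h2 (hgen τ)
  obtain ⟨f, hf⟩ := hmem
  obtain ⟨vK, hvK, hval⟩ := hVK k K L κ v hv
  rw [hn] at hval
  obtain ⟨h, hh, -⟩ := hRED p k K κ vK hvK f
  have hw : σ (w0 - algebraMap K L h) = (w0 - algebraMap K L h) + 1 := by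
    rw [map_sub, hw0, AlgEquiv.commutes]
    ring
  have hwp : (w0 - algebraMap K L h) ^ p - (w0 - algebraMap K L h) =
      algebraMap K L (f - (h ^ p - h)) := by
    rw [sub_pow_char, map_sub, hf, map_sub, map_pow]
    ring
  -- the properties of `s`
  have hs := hS1 p k L ((algebraMap K L).comp κ) v hv.tv (σ : L →+* L)
    (fun c => by
      show σ (algebraMap K L (κ c)) = algebraMap K L (κ c)
      exact AlgEquiv.commutes σ _)
    (fun x => hv.inv σ x)
    ⟨1, fun x => by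
      have h1 : (⇑((σ : L ≃ₐ[K] L) : L →+* L)) = ⇑σ := rfl
      rw [pow_one, h1]
      have h2 : (⇑σ)^[p] = ⇑(σ ^ p) := by
        ext y
        exact (AlgEquiv.coe_pow σ p ▸ rfl)
      rw [h2, hsp]
      rfl⟩
    ⟨w0, by
      intro h1
      have h2 : σ w0 = w0 := h1
      rw [hw0] at h2
      exact one_ne_zero (add_eq_left.1 h2)⟩
  obtain ⟨hs1, hs2, hs3⟩ := hs
  have hscoe : s v (⇑(σ : L →+* L)) = s v ⇑σ := rfl
  rw [hscoe] at hs1 hs2 hs3
  generalize hwdef : w0 - algebraMap K L h = w at hw hwp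
  have hsub : σ w - w = 1 := by rw [hw]; ring
  rcases hh with h0 | ⟨n, hn1, hnp, hnv⟩
  · exfalso
    have hvw : 0 ≤ v w := by
      by_contra hcon
      push Not at hcon
      have hne : v w ≠ ⊤ := ne_top_of_lt hcon
      obtain ⟨a, ha⟩ := WithTop.ne_top_iff_exists.1 hne
      have ha0 : a < 0 := by
        rw [← ha] at hcon
        exact_mod_cast hcon
      have hpow : v (w ^ p) = (((p : ℤ) * a : ℤ) : WithTop ℤ) := by
        rw [AddValuation.map_pow, ← ha, asc_nsmul_coe]
      have hp2 : (2 : ℤ) ≤ p := by exact_mod_cast hp.two_le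
      have hlt : v (w ^ p) < v w := by
        rw [hpow, ← ha]
        have : (p : ℤ) * a < a := by nlinarith
        exact_mod_cast this
      have h3 := AddValuation.map_sub_eq_of_lt_left (v := v) hlt
      rw [hwp, hpow, hval] at h3
      have h4 : (0 : WithTop ℤ) ≤ p • vK (f - (h ^ p - h)) := nsmul_nonneg h0 p
      rw [h3] at h4
      have h5 : (0 : ℤ) ≤ (p : ℤ) * a := by exact_mod_cast h4
      nlinarith
    obtain ⟨c, hc⟩ := hv.tv.const w hvw
    have h1 := hs2 (w - ((algebraMap K L).comp κ) c)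
    have h2 : (σ : L →+* L) (w - ((algebraMap K L).comp κ) c) -
        (w - ((algebraMap K L).comp κ) c) = 1 := by
      show σ (w - algebraMap K L (κ c)) - (w - algebraMap K L (κ c)) = 1
      rw [map_sub, hw, AlgEquiv.commutes]
      ring
    rw [h2, AddValuation.map_one] at h1
    have h3 : (1 : WithTop ℤ) + ((s v ⇑σ : ℤ) : WithTop ℤ) ≤ 0 := by
      refine le_trans ?_ h1
      gcongr
    have h4 : (1 : ℤ) + (s v ⇑σ : ℤ) ≤ 0 := by exact_mod_cast h3
    omega
  · have hp0 : (0 : ℤ) < p := by exact_mod_cast hp.pos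
    have hn0 : (0 : ℤ) < n := by exact_mod_cast hn1
    have hα : v (algebraMap K L (f - (h ^ p - h))) = ((-((p : ℤ) * n) : ℤ) : WithTop ℤ) := by
      rw [hval, hnv, asc_nsmul_coe]
      congr 1
      ring
    obtain ⟨a, ha, hpa⟩ := asc_val p hp.two_le v w _ ((p : ℤ) * n) (by positivity) hwp hα
    have han : a = -(n : ℤ) := by
      have h1 : (p : ℤ) * a = p * (-(n : ℤ)) := by rw [hpa]; ring
      exact mul_left_cancel₀ hp0.ne' h1
    subst han
    refine ⟨w, f - (h ^ p - h), n, hn1, hnp, hw, hwp, ha, ?_⟩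
    have h1 := hs3 w (-(n : ℤ)) ha (by
      rw [Int.dvd_neg]
      exact_mod_cast hnp)
    have h2 : (σ : L →+* L) w - w = 1 := hsub
    rw [h2, AddValuation.map_one] at h1
    have h3 : (0 : ℤ) = -(n : ℤ) + (s v ⇑σ : ℤ) := by exact_mod_cast h1
    have h4 : (s v ⇑σ : ℤ) = n := by omega
    exact_mod_cast h4

end Pool.Agent.Helper20.NP
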