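import Pool.Agent.Helper20.NP.Stmts

set_option autoImplicit false

namespace Pool.Agent.Helper20.NP

open Pool.Agent.Helper21.DN

universe u

theorem dc_const (p : ℕ) [Fact p.Prime] {k L : Type u} [Field k] [CharP k p] [IsAlgClosed k]
    [Field L] (κ : k →+* L) (D : Derivation ℤ L L) (c : k) : D (κ c) = 0 := by
  obtain ⟨d, hd⟩ := IsAlgClosed.exists_pow_nat_eq c (Fact.out (p := p.Prime)).pos
  have : CharP L p := charP_of_injective_ringHom κ.injective p
  rw [← hd, map_pow, Derivation.leibniz_pow, nsmul_eq_mul, CharP.cast_eq_zero, zero_mul]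

theorem dc_npow {L : Type u} [Field L] (v : AddValuation L (WithTop ℤ)) (π : L) (hπ : v π = 1)
    (n : ℕ) : v (π ^ n) = ((n : ℤ) : WithTop ℤ) := by
  induction n with
  | zero => simp
  | succ n ih =>
    rw [pow_succ, AddValuation.map_mul, ih, hπ]
    push_cast
    rfl

theorem dc_zpow {L : Type u} [Field L] (v : AddValuation L (WithTop ℤ)) (π : L) (hπ : v π = 1)
    (n : ℤ) : v (π ^ n) = (n : WithTop ℤ) := by
  have hπ0 : π ≠ 0 := by
    intro h
    rw [h, AddValuation.map_zero] at hπ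
    exact absurd hπ (by decide)
  rcases Int.eq_nat_or_neg n with ⟨m, rfl | rfl⟩
  · rw [zpow_natCast]
    exact dc_npow v π hπ m
  · have h1 : v (π ^ (-(m : ℤ)) * π ^ m) = 0 := by
      rw [zpow_neg, zpow_natCast, inv_mul_cancel₀ (pow_ne_zero m hπ0), AddValuation.map_one]
    rw [AddValuation.map_mul, dc_npow v π hπ m] at h1
    have h2 : v (π ^ (-(m : ℤ))) ≠ ⊤ := by
      intro h
      rw [h, top_add] at h1
      exact absurd h1 (WithTop.top_ne_coe (a := (0 : ℤ)))
    obtain ⟨a, ha⟩ := WithTop.ne_top_iff_exists.1 h2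
    rw [← ha] at h1 ⊢
    have h3 : a + (m : ℤ) = 0 := by exact_mod_cast h1
    have h4 : a = -(m : ℤ) := by omega
    rw [h4]

/-- the leading coefficient -/
theorem dc_lead {k L : Type u} [Field k] [Field L] (κ : k →+* L) (v : AddValuation L (WithTop ℤ))
    (hv : TV κ v) (π : L) (hπ : v π = 1) (x : L) (m : ℤ) (hx : (m : WithTop ℤ) ≤ v x) :
    ∃ c : k, ((m + 1 : ℤ) : WithTop ℤ) ≤ v (x - κ c * π ^ m) := by
  have hπ0 : π ≠ 0 := by
    intro h
    rw [h, AddValuation.map_zero] at hπ
    exact absurd hπ (by decide)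
  have h1 : (0 : WithTop ℤ) ≤ v (x * π ^ (-m)) := by
    rw [AddValuation.map_mul, dc_zpow v π hπ]
    calc (0 : WithTop ℤ) = (m : WithTop ℤ) + ((-m : ℤ) : WithTop ℤ) := by
          rw [← WithTop.coe_add, add_neg_cancel, WithTop.coe_zero]
      _ ≤ _ := by gcongr
  obtain ⟨c, hc⟩ := hv.const _ h1
  refine ⟨c, ?_⟩
  have h2 : x - κ c * π ^ m = (x * π ^ (-m) - κ c) * π ^ m := by
    rw [sub_mul, mul_assoc, ← zpow_add₀ hπ0, neg_add_cancel, zpow_zero, mul_one]
  rw [h2, AddValuation.map_mul, dc_zpow v π hπ]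
  calc ((m + 1 : ℤ) : WithTop ℤ) = 1 + (m : WithTop ℤ) := by
        rw [add_comm m 1, WithTop.coe_add, WithTop.coe_one]
    _ ≤ _ := by gcongr

/-- the valuation of an integer in characteristic `p` -/
theorem dc_int (p : ℕ) [Fact p.Prime] {k L : Type u} [Field k] [CharP k p] [Field L]
    (κ : k →+* L) (v : AddValuation L (WithTop ℤ)) (hv : TV κ v) (m : ℤ) :
    0 ≤ v (m : L) ∧ (¬ (p : ℤ) ∣ m → v (m : L) = 0) := by
  have h1 : (m : L) = κ (m : k) := by rw [map_intCast]
  constructor
  · rw [h1]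
    rcases eq_or_ne (m : k) 0 with h | h
    · rw [h, map_zero, AddValuation.map_zero]
      exact le_top
    · rw [hv.alg _ h]
  · intro h
    rw [h1]
    apply hv.alg
    intro h2
    exact h ((CharP.intCast_eq_zero_iff k p m).1 h2)

theorem dc_term (p : ℕ) [Fact p.Prime] {k L : Type u} [Field k] [CharP k p] [IsAlgClosed k]
    [Field L] (κ : k →+* L) (v : AddValuation L (WithTop ℤ)) (hv : TV κ v)
    (D : Derivation ℤ L L) (e : ℤ) (π : L) (hπ : v π = 1)
    (hD : v (D π) = ((1 - e : ℤ) : WithTop ℤ)) (c : k) (m : ℤ) :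
    ((m - e : ℤ) : WithTop ℤ) ≤ v (D (κ c * π ^ m)) ∧
    (c ≠ 0 → ¬ (p : ℤ) ∣ m → v (D (κ c * π ^ m)) = ((m - e : ℤ) : WithTop ℤ)) := by
  have h1 : D (κ c * π ^ m) = κ c * ((m : L) * (π ^ (m - 1) * D π)) := by
    rw [Derivation.leibniz, dc_const p κ D c, smul_zero, add_zero, Derivation.leibniz_zpow,
      smul_eq_mul, smul_eq_mul, zsmul_eq_mul]
  have h2 : v (π ^ (m - 1) * D π) = ((m - e : ℤ) : WithTop ℤ) := by
    rw [AddValuation.map_mul, dc_zpow v π hπ, hD, ← WithTop.coe_add]
    congr 1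
    ring
  have hm := dc_int p κ v hv m
  constructor
  · rw [h1, AddValuation.map_mul, AddValuation.map_mul, h2]
    have h3 : 0 ≤ v (κ c) := by
      rcases eq_or_ne c 0 with h | h
      · rw [h, map_zero, AddValuation.map_zero]
        exact le_top
      · rw [hv.alg _ h]
    calc ((m - e : ℤ) : WithTop ℤ) = 0 + (0 + ((m - e : ℤ) : WithTop ℤ)) := by
          rw [zero_add, zero_add]
      _ ≤ _ := by
          gcongr
          exact hm.1
  · intro hc hp
    rw [h1, AddValuation.map_mul, AddValuation.map_mul, h2, hv.alg _ hc, hm.2 hp, zero_add,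
      zero_add]

theorem dc_ind (p : ℕ) [Fact p.Prime] {k L : Type u} [Field k] [CharP k p] [IsAlgClosed k]
    [Field L] (κ : k →+* L) (v : AddValuation L (WithTop ℤ)) (hv : TV κ v)
    (D : Derivation ℤ L L) (C e : ℤ) (π : L)
    (hC : ∀ x : L, v x ≤ v (D x) + (C : WithTop ℤ)) (hπ : v π = 1)
    (hD : v (D π) = ((1 - e : ℤ) : WithTop ℤ)) (N : ℕ) :
    ∀ (m : ℤ) (x : L), (m : WithTop ℤ) ≤ v x →
      ((min (m - e) (m + N - C) : ℤ) : WithTop ℤ) ≤ v (D x) := by
  induction N with
  | zero =>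
    intro m x hx
    have h1 : (m : WithTop ℤ) ≤ v (D x) + (C : WithTop ℤ) := hx.trans (hC x)
    rcases eq_or_ne (v (D x)) ⊤ with h | h
    · rw [h]
      exact le_top
    · obtain ⟨a, ha⟩ := WithTop.ne_top_iff_exists.1 h
      rw [← ha] at h1 ⊢
      have h2 : m ≤ a + C := by exact_mod_cast h1
      have h3 : min (m - e) (m + ((0 : ℕ) : ℤ) - C) ≤ a := by
        refine (min_le_right _ _).trans ?_
        push_cast
        omega
      exact_mod_cast h3
  | succ N ih =>
    intro m x hx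
    obtain ⟨c, hc⟩ := dc_lead κ v hv π hπ x m hx
    have h1 := ih (m + 1) _ hc
    have h2 := (dc_term p κ v hv D e π hπ hD c m).1
    have h3 : D x = D (κ c * π ^ m) + D (x - κ c * π ^ m) := by
      rw [← map_add]
      congr 1
      ring
    rw [h3]
    apply AddValuation.map_le_add
    · refine le_trans ?_ h2
      exact_mod_cast min_le_left _ _
    · refine le_trans ?_ h1
      have h4 : min (m - e) (m + ((N + 1 : ℕ) : ℤ) - C) ≤
          min (m + 1 - e) (m + 1 + (N : ℤ) - C) := by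
        apply le_min
        · refine (min_le_left _ _).trans ?_
          omega
        · refine (min_le_right _ _).trans ?_
          push_cast
          omega
      exact_mod_cast h4

theorem dc_le (p : ℕ) [Fact p.Prime] {k L : Type u} [Field k] [CharP k p] [IsAlgClosed k]
    [Field L] (κ : k →+* L) (v : AddValuation L (WithTop ℤ)) (hv : TV κ v)
    (D : Derivation ℤ L L) (C e : ℤ) (π : L)
    (hC : ∀ x : L, v x ≤ v (D x) + (C : WithTop ℤ)) (hπ : v π = 1)
    (hD : v (D π) = ((1 - e : ℤ) : WithTop ℤ)) (m : ℤ) (x : L) (hx : (m : WithTop ℤ) ≤ v x) :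
    ((m - e : ℤ) : WithTop ℤ) ≤ v (D x) := by
  have h1 := dc_ind p κ v hv D C e π hC hπ hD (C - e).toNat m x hx
  refine le_trans ?_ h1
  have h2 : m - e ≤ min (m - e) (m + ((C - e).toNat : ℤ) - C) := by
    apply le_min le_rfl
    have := Int.self_le_toNat (C - e)
    omega
  exact_mod_cast h2

theorem st_DC : ST_DC.{u} := by
  intro p _ k L _ _ _ _ κ v hv D C e π hC hπ hD
  refine ⟨?_, ?_⟩
  · intro x
    rcases eq_or_ne (v x) ⊤ with h | h
    · have h0 : x = 0 := (AddValuation.top_iff v).1 h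
      have h2 : D (0 : L) = 0 := map_zero D
      rw [h0, h2, AddValuation.map_zero, top_add]
    · obtain ⟨m, hm⟩ := WithTop.ne_top_iff_exists.1 h
      have h1 := dc_le p κ v hv D C e π hC hπ hD m x hm.le
      rw [← hm]
      calc (m : WithTop ℤ) = ((m - e : ℤ) : WithTop ℤ) + (e : WithTop ℤ) := by
            rw [← WithTop.coe_add, sub_add_cancel]
        _ ≤ _ := by gcongr
  · intro x m hx hp
    obtain ⟨c, hc⟩ := dc_lead κ v hv π hπ x m hx.ge
    have hc0 : c ≠ 0 := by
      intro h0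
      rw [h0, map_zero, zero_mul, sub_zero, hx] at hc
      have : m + 1 ≤ m := by exact_mod_cast hc
      omega
    have h1 := dc_le p κ v hv D C e π hC hπ hD (m + 1) _ hc
    have h2 := (dc_term p κ v hv D e π hπ hD c m).2 hc0 hp
    have h3 : D x = D (κ c * π ^ m) + D (x - κ c * π ^ m) := by
      rw [← map_add]
      congr 1
      ring
    have h4 : v (D (κ c * π ^ m)) < v (D (x - κ c * π ^ m)) := by
      rw [h2]
      refine lt_of_lt_of_le ?_ h1
      have : m - e < m + 1 - e := by omega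
      exact_mod_cast this
    rw [h3, AddValuation.map_add_eq_of_lt_left v h4, h2]

end Pool.Agent.Helper20.NP
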