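import Pool.Agent.Helper20.NP.Stmts
import Pool.Agent.Helper79.DN.ASC

set_option autoImplicit false

namespace Pool.Agent.Helper20.NP

open Pool.Agent.Helper21.DN

universe u

/-- the bound for the valuation of `g` -/
theorem tpp_g {E : Type u} [Field E] (p : ℕ) (hp : 2 ≤ p) (v : AddValuation E (WithTop ℤ))
    (g : E) (N : ℕ) (hg : ((-(N : ℤ) : ℤ) : WithTop ℤ) ≤ v (g ^ p - g)) :
    ((-((N / p : ℕ) : ℤ) : ℤ) : WithTop ℤ) ≤ v g := by
  by_cases hcon : 0 ≤ v g
  · refine le_trans ?_ hcon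
    have : (-((N / p : ℕ) : ℤ) : ℤ) ≤ 0 := neg_nonpos.2 (Int.natCast_nonneg _)
    exact_mod_cast this
  · push Not at hcon
    have hne : v g ≠ ⊤ := ne_top_of_lt hcon
    obtain ⟨a, ha⟩ := WithTop.ne_top_iff_exists.1 hne
    have ha0 : a < 0 := by
      rw [← ha] at hcon
      exact_mod_cast hcon
    have hpow : v (g ^ p) = (((p : ℤ) * a : ℤ) : WithTop ℤ) := by
      rw [AddValuation.map_pow, ← ha, asc_nsmul_coe]
    have hp2 : (2 : ℤ) ≤ p := by exact_mod_cast hp
    have hlt : v (g ^ p) < v g := by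
      rw [hpow, ← ha]
      have : (p : ℤ) * a < a := by nlinarith
      exact_mod_cast this
    have h3 := AddValuation.map_sub_eq_of_lt_left (v := v) hlt
    rw [h3, hpow] at hg
    have h4 : -(N : ℤ) ≤ (p : ℤ) * a := by exact_mod_cast hg
    rw [← ha]
    obtain ⟨b, hb⟩ : ∃ b : ℕ, a = -(b : ℤ) := ⟨a.natAbs, by omega⟩
    subst hb
    have h5 : (p : ℤ) * b ≤ N := by linarith
    have h6 : b * p ≤ N := by
      have : p * b ≤ N := by exact_mod_cast h5
      linarith
    have h7 : b ≤ N / p := (Nat.le_div_iff_mul_le (by omega)).2 h6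
    have h8 : -((N / p : ℕ) : ℤ) ≤ -(b : ℤ) := by
      have : (b : ℤ) ≤ ((N / p : ℕ) : ℤ) := by exact_mod_cast h7
      linarith
    exact_mod_cast h8

/-- arithmetic: the alternative -/
theorem tpp_alt (p n S : ℕ) (h : (p - 1) * (n - 1) < (p - 1) * ((n - 1) / p) + S) (hp : 1 ≤ p) :
    (p - 1) ^ 2 * (n - 1) < p * S := by
  obtain ⟨q, rfl⟩ : ∃ q, p = q + 1 := ⟨p - 1, by omega⟩
  simp only [Nat.add_sub_cancel] at h ⊢
  generalize n - 1 = m at h ⊢
  have h1 : (q + 1) * (m / (q + 1)) ≤ m := Nat.mul_div_le m (q + 1)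
  have h2 : (q + 1) * (q * m) < (q + 1) * (q * (m / (q + 1)) + S) :=
    Nat.mul_lt_mul_of_pos_left h (by omega)
  have h3 : q * ((q + 1) * (m / (q + 1))) ≤ q * m := Nat.mul_le_mul_left q h1
  nlinarith

theorem st_TPP (hDIFT : ST_DIFT.{u}) (hAPX : ST_APX.{u}) (hVK : ST_VK.{u}) (hS1 : ST_S1.{u}) :
    ST_TPP.{u} := by
  intro p _ k K E _ _ _ _ _ _ _ _ κ v hv hG D e hD f n hn1 hnp hf hg
  have hp : p.Prime := Fact.out
  have hK : CharP K p := charP_of_injective_ringHom κ.injective p
  have hE : CharP E p := charP_of_injective_ringHom (algebraMap K E).injective p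
  have hDV := hDIFT p k K E κ v hv hG D e hD
  obtain ⟨vK, -, hval⟩ := hVK k K E κ v hv
  set S : ℕ := S1 (fun σ : E ≃ₐ[K] E => s v σ) with hS
  set q : ℕ := Module.finrank K E with hq
  set eE : ℤ := (q : ℤ) * e + (S : ℤ) with heE
  by_cases hcase : (p - 1) * ((n - 1) / p) + S ≤ (p - 1) * (n - 1)
  · left
    have hDf : v (D f) = ((-(n : ℤ) - eE : ℤ) : WithTop ℤ) := by
      apply hDV.eq f _ hf
      rw [Int.dvd_neg]
      exact_mod_cast hnp
    -- the invariance
    have hinv : ∀ σ : E ≃ₐ[K] E,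
        ((-(((n - 1) / p : ℕ) : ℤ) - eE : ℤ) : WithTop ℤ) ≤ v (σ (D f) - D f) := by
      intro σ
      obtain ⟨g, hgσ⟩ := hg σ
      have h1 : σ (D f) - D f = -(D g) := by
        rw [← hD.comm σ f, ← map_sub, hgσ, map_sub, Derivation.leibniz_pow, nsmul_eq_mul,
          CharP.cast_eq_zero, zero_mul, zero_sub]
      rw [h1, AddValuation.map_neg]
      have h2 : ((-((n - 1 : ℕ) : ℤ) : ℤ) : WithTop ℤ) ≤ v (g ^ p - g) := by
        by_cases hσ : ∃ x, σ x ≠ x
        · obtain ⟨N, hN⟩ := hG σ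
          have hs := hS1 p k E ((algebraMap K E).comp κ) v hv.tv (σ : E →+* E)
            (fun c => by
              show σ (algebraMap K E (κ c)) = algebraMap K E (κ c)
              exact AlgEquiv.commutes σ _)
            (fun x => hv.inv σ x)
            ⟨N, fun x => by
              have h1 : (⇑((σ : E ≃ₐ[K] E) : E →+* E)) = ⇑σ := rfl
              rw [h1]
              have h2 : (⇑σ)^[p ^ N] = ⇑(σ ^ (p ^ N)) := by
                ext y
                exact (AlgEquiv.coe_pow σ (p ^ N) ▸ rfl)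
              rw [h2, hN]
              rfl⟩
            hσ
          obtain ⟨hs1, hs2, -⟩ := hs
          have h3 := hs2 f
          have h4 : (σ : E →+* E) f - f = g ^ p - g := hgσ
          rw [h4, hf] at h3
          refine le_trans ?_ h3
          have h5 : (-((n - 1 : ℕ) : ℤ) : ℤ) ≤
              -(n : ℤ) + (s v (⇑(σ : E →+* E)) : ℤ) := by
            have : ((n - 1 : ℕ) : ℤ) = (n : ℤ) - 1 := by omega
            omega
          exact_mod_cast h5
        · push Not at hσ
          have h3 : g ^ p - g = 0 := by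
            rw [← hgσ, hσ f, sub_self]
          rw [h3, AddValuation.map_zero]
          exact le_top
      have h3 := tpp_g p hp.two_le v g (n - 1) h2
      have h4 := h3.trans (hDV.le g)
      rcases eq_or_ne (v (D g)) ⊤ with ht | ht
      · rw [ht]
        exact le_top
      · obtain ⟨a, ha⟩ := WithTop.ne_top_iff_exists.1 ht
        rw [← ha] at h4 ⊢
        have h5 : (-(((n - 1) / p : ℕ) : ℤ) : ℤ) ≤ a + eE := by exact_mod_cast h4
        have h6 : (-(((n - 1) / p : ℕ) : ℤ) - eE : ℤ) ≤ a := by linarith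
        exact_mod_cast h6
    obtain ⟨H, hH⟩ := hAPX p k K E κ v hv hG (D f) _ hinv
    have hp1 : 0 < p - 1 := by
      have := hp.two_le
      omega
    have hclose : ((-(n : ℤ) - eE + 1 : ℤ) : WithTop ℤ) ≤ v (D f - algebraMap K E H) := by
      rcases eq_or_ne (v (D f - algebraMap K E H)) ⊤ with ht | ht
      · rw [ht]
        exact le_top
      · obtain ⟨a, ha⟩ := WithTop.ne_top_iff_exists.1 ht
        rw [← ha] at hH ⊢
        rw [asc_nsmul_coe] at hH
        have h1 : ((p : ℤ) - 1) * (-(((n - 1) / p : ℕ) : ℤ) - eE) - (S : ℤ) ≤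
            ((p - 1 : ℕ) : ℤ) * a := by exact_mod_cast hH
        have h2 : ((p - 1 : ℕ) : ℤ) = (p : ℤ) - 1 := by
          have := hp.two_le
          omega
        have h3 : ((p : ℤ) - 1) * (((n - 1) / p : ℕ) : ℤ) + (S : ℤ) ≤
            ((p : ℤ) - 1) * ((n : ℤ) - 1) := by
          have h4 : (((p - 1) * ((n - 1) / p) + S : ℕ) : ℤ) ≤
              (((p - 1) * (n - 1) : ℕ) : ℤ) := by exact_mod_cast hcase
          have h5 : ((n - 1 : ℕ) : ℤ) = (n : ℤ) - 1 := by omega
          rw [Nat.cast_add, Nat.cast_mul, Nat.cast_mul, h2, h5] at h4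
          exact h4
        rw [h2] at h1
        have h4 : ((p : ℤ) - 1) * (-(n : ℤ) - eE + 1) ≤ ((p : ℤ) - 1) * a := by linarith
        have h5 : (0 : ℤ) < (p : ℤ) - 1 := by
          have := hp.two_le
          omega
        have h6 : -(n : ℤ) - eE + 1 ≤ a := le_of_mul_le_mul_left h4 h5
        exact_mod_cast h6
    have hlt : v (D f) < v (D f - algebraMap K E H) := by
      refine lt_of_lt_of_le ?_ hclose
      rw [hDf]
      have : -(n : ℤ) - eE < -(n : ℤ) - eE + 1 := by omega
      exact_mod_cast this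
    have hvH : v (algebraMap K E H) = ((-(n : ℤ) - eE : ℤ) : WithTop ℤ) := by
      have h1 := AddValuation.map_sub_eq_of_lt_left v hlt
      rw [sub_sub_cancel, hDf] at h1
      exact h1
    rw [hval] at hvH
    have hq0 : 0 < q := Module.finrank_pos
    rcases eq_or_ne (vK H) ⊤ with ht | ht
    · rw [ht, asc_nsmul_top q hq0] at hvH
      exact absurd hvH WithTop.top_ne_coe
    · obtain ⟨a, ha⟩ := WithTop.ne_top_iff_exists.1 ht
      rw [← ha, asc_nsmul_coe] at hvH
      have h1 : (q : ℤ) * a = -(n : ℤ) - eE := WithTop.coe_injective hvH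
      have h2 : (q : ℤ) ∣ ((n + S : ℕ) : ℤ) := by
        refine ⟨-a - e, ?_⟩
        push_cast
        rw [heE] at h1
        linear_combination h1
      exact_mod_cast h2
  · right
    push Not at hcase
    exact tpp_alt p n S hcase hp.one_le

end Pool.Agent.Helper20.NP
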